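import Pool.Agent.H19.OM.Stm2
import Pool.Graph.R_seed8.Helper256.KM.Mertens

/-!
# Project OM (helper19), module CG (helper52): the difference of the two means over a period
-/

set_option autoImplicit false
set_option maxHeartbeats 4000000

namespace Pool.Agent.H52.OM

open Finset Filter Topology
open Pool.Agent.H19.OM

lemma exp_le_one_sub {x : ℝ} (h0 : 0 ≤ x) (h1 : x ≤ 1 / 2) : Real.exp (-(2 * x)) ≤ 1 - x := by
  have h2 : 0 < 1 - x := by linarith
  rw [← Real.le_log_iff_exp_le h2]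
  have h3 := Real.one_sub_inv_le_log_of_pos h2
  have h4 : (1 - x)⁻¹ ≤ 1 + 2 * x := by
    rw [inv_le_iff_one_le_mul₀ h2]
    nlinarith
  linarith

lemma jprod (S : Finset ℕ) (a : ℕ → ℝ) (f : ℕ → ℂ) (d : ℕ → ℝ)
    (h : ∀ p ∈ S, 1 / 2 ≤ a p ∧ ‖f p - (a p : ℂ)‖ ≤ d p) :
    ∏ p ∈ S, ‖f p‖ ≤ (∏ p ∈ S, a p) * Real.exp (2 * ∑ p ∈ S, d p) := by
  rw [mul_sum, Real.exp_sum, ← prod_mul_distrib]
  refine prod_le_prod (fun _ _ => norm_nonneg _) fun p hp => ?_
  obtain ⟨h1, h2⟩ := h p hp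
  have hd : 0 ≤ d p := (norm_nonneg _).trans h2
  have h3 : ‖f p‖ ≤ a p + d p := by
    calc ‖f p‖ = ‖(a p : ℂ) + (f p - a p)‖ := by congr 1; ring
      _ ≤ ‖(a p : ℂ)‖ + ‖f p - a p‖ := norm_add_le _ _
      _ ≤ a p + d p := by
        rw [Complex.norm_real, Real.norm_of_nonneg (by linarith)]
        linarith
  have h4 : 1 + 2 * d p ≤ Real.exp (2 * d p) := by
    have := Real.add_one_le_exp (2 * d p)
    linarith
  calc ‖f p‖ ≤ a p + d p := h3
    _ ≤ a p * (1 + 2 * d p) := by nlinarith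
    _ ≤ a p * Real.exp (2 * d p) := mul_le_mul_of_nonneg_left h4 (by linarith)

lemma aprod (S : Finset ℕ) (a x : ℕ → ℝ)
    (h : ∀ p ∈ S, 0 ≤ x p ∧ x p ≤ 1 / 2 ∧ 1 - x p ≤ a p) :
    Real.exp (-(2 * ∑ p ∈ S, x p)) ≤ ∏ p ∈ S, a p := by
  rw [mul_sum, ← sum_neg_distrib, Real.exp_sum]
  exact prod_le_prod (fun _ _ => (Real.exp_pos _).le)
    fun p hp => (exp_le_one_sub (h p hp).1 (h p hp).2.1).trans (h p hp).2.2

lemma sum_inv (M : ℕ) : ∑ p ∈ prs 0 M, (1 : ℝ) / p ≤ 1 + Real.log M := by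
  have h1 := harmonic_le_one_add_log M
  have h2 : ((harmonic M : ℚ) : ℝ) = ∑ i ∈ Icc 1 M, (1 : ℝ) / i := by
    rw [harmonic_eq_sum_Icc]
    push_cast
    exact sum_congr rfl fun i _ => by rw [one_div]
  rw [h2] at h1
  refine le_trans (sum_le_sum_of_subset_of_nonneg ?_ fun i _ _ => by positivity) h1
  intro p hp
  unfold prs at hp
  rw [mem_filter, mem_Ioc] at hp
  rw [mem_Icc]
  exact ⟨hp.1.1, hp.1.2⟩

lemma sum_inv_sq {M y : ℕ} (hM : M ≠ 0) (hy : M ≤ y) :
    ∑ p ∈ prs M y, (1 : ℝ) / (p : ℝ) ^ 2 ≤ 1 / M := by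
  have h1 : ∑ i ∈ Ioc M y, ((i : ℝ) ^ 2)⁻¹ ≤ (M : ℝ)⁻¹ - (y : ℝ)⁻¹ := sum_Ioc_inv_sq_le_sub hM hy
  have h2 : (0 : ℝ) ≤ (y : ℝ)⁻¹ := by positivity
  have h3 : ∑ p ∈ prs M y, (1 : ℝ) / (p : ℝ) ^ 2 ≤ ∑ i ∈ Ioc M y, ((i : ℝ) ^ 2)⁻¹ := by
    simp only [one_div]
    exact sum_le_sum_of_subset_of_nonneg (filter_subset _ _) fun i _ _ => by positivity
  rw [one_div]
  linarith

/-- CG -/
theorem t_CG (hCA : S_CA) (hCI : S_CI) (hC1 : S_C1) (hC2 : S_C2) (hCB : S_CB) (hC3 : S_C3) :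
    S_CG := by
  intro c hc
  obtain ⟨C2, hC2p, h2⟩ := hC2
  obtain ⟨CB, hCBp, hB⟩ := hCB
  obtain ⟨C0, hMe⟩ := Pool.Agent.Helper256.KM.mertens_inv
  refine ⟨1 / 4 * Real.exp (-(3 * (1 + |C0|) / c)), by positivity, ?_⟩
  -- the conditions on `t = log log y`
  have hlog : ∀ᶠ t : ℝ in atTop, Real.log t ^ 3 ≤ c / (2000 * C2) * t := by
    have h1 := (Real.isLittleO_pow_log_id_atTop (n := 3)).bound (show 0 < c / (2000 * C2) by positivity)
    filter_upwards [h1, eventually_ge_atTop 1] with t h3 h4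
    have h5 : 0 ≤ Real.log t := Real.log_nonneg h4
    rw [Real.norm_of_nonneg (by positivity), id, Real.norm_of_nonneg (by linarith)] at h3
    exact h3
  have hev : ∀ᶠ t : ℝ in atTop, Real.log t ^ 3 ≤ c / (2000 * C2) * t ∧ 196 ≤ t ∧ 75 / c ≤ t ∧
      (25 / c) ^ 2 ≤ t ∧ 1600 * CB ≤ t ∧ Real.exp 1 ≤ t := by
    filter_upwards [hlog, eventually_ge_atTop 196, eventually_ge_atTop (75 / c),
      eventually_ge_atTop ((25 / c) ^ 2), eventually_ge_atTop (1600 * CB),
      eventually_ge_atTop (Real.exp 1)] with t h1 h2 h3 h4 h5 h6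
    exact ⟨h1, h2, h3, h4, h5, h6⟩
  have hlog3 : ∀ᶠ u : ℝ in atTop, Real.log u ^ 3 ≤ u := by
    have h1 := (Real.isLittleO_pow_log_id_atTop (n := 3)).bound one_pos
    filter_upwards [h1, eventually_ge_atTop 1] with t h3 h4
    have h5 : 0 ≤ Real.log t := Real.log_nonneg h4
    rw [Real.norm_of_nonneg (by positivity), id, Real.norm_of_nonneg (by linarith), one_mul] at h3
    exact h3
  have hcast : Tendsto (fun y : ℕ => (y : ℝ)) atTop atTop := tendsto_natCast_atTop_atTop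
  have hl1 : Tendsto (fun y : ℕ => Real.log (y : ℝ)) atTop atTop :=
    Real.tendsto_log_atTop.comp hcast
  have hl2 : Tendsto (fun y : ℕ => Real.log (Real.log (y : ℝ))) atTop atTop :=
    Real.tendsto_log_atTop.comp hl1
  have hevy := ((hl2.eventually hev).and (hl1.eventually hlog3)).and (eventually_ge_atTop 3)
  obtain ⟨A, hA⟩ := eventually_atTop.1 hevy
  refine ⟨A, fun y m hy hm1 hm2 => ?_⟩
  obtain ⟨⟨⟨k1, k2, k3, k4, k5, k6⟩, k7⟩, k8⟩ := hA y hy
  set t : ℝ := Real.log (Real.log y) with ht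
  set M : ℕ := ⌊t ^ 3⌋₊ with hM
  set L : ℕ := ⌊Real.sqrt t / 2⌋₊ with hL
  set θ : ℝ := 1 / (2 * m) with hθ
  -- basic facts
  have ht0 : 0 < t := by linarith
  have hmr : (0 : ℝ) < m := lt_of_lt_of_le (by positivity) hm1
  have hm0 : 1 ≤ m := by
    have : 0 < m := by exact_mod_cast hmr
    omega
  have hm1r : (1 : ℝ) ≤ m := by exact_mod_cast hm0
  have hyr : (3 : ℝ) ≤ y := by exact_mod_cast k8
  have hMle : (M : ℝ) ≤ t ^ 3 := Nat.floor_le (by positivity)
  have hMge : t ^ 3 - 1 < M := Nat.sub_one_lt_floor _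
  have hMy : M ≤ y := by
    have h1 : Real.log y ≤ y := (Real.log_le_sub_one_of_pos (by linarith)).trans (by linarith)
    have h3 : (M : ℝ) ≤ y := hMle.trans (k7.trans h1)
    exact_mod_cast h3
  have ht3 : 196 * 196 * t ≤ t ^ 3 := by
    have h1 : 196 * 196 ≤ t * t := mul_le_mul k2 k2 (by norm_num) ht0.le
    calc 196 * 196 * t ≤ t * t * t := mul_le_mul_of_nonneg_right h1 ht0.le
      _ = t ^ 3 := by ring
  have hM2m : 2 * m ≤ M := by
    have h1 : (2 : ℝ) * m ≤ M := by linarith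
    exact_mod_cast h1
  have hM2 : 2 ≤ M := by omega
  have hL7 : 7 ≤ L := by
    rw [hL]
    apply Nat.le_floor
    have h1 : (14 : ℝ) ≤ Real.sqrt t := by
      apply Real.le_sqrt_of_sq_le
      linarith
    push_cast
    linarith
  have hLle : (L : ℝ) ≤ Real.sqrt t / 2 := Nat.floor_le (by positivity)
  have hsq : Real.sqrt t * Real.sqrt t = t := Real.mul_self_sqrt ht0.le
  have hst : 25 / c ≤ Real.sqrt t := Real.le_sqrt_of_sq_le k4
  have hℓ : 1 ≤ Real.log t := by
    rw [Real.le_log_iff_exp_le ht0]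
    exact k6
  -- the cap
  set Lf : ℕ → ℕ := cap M L with hLf
  have hcap1 : ∀ p, 1 ≤ Lf p := by
    intro p
    rw [hLf]
    unfold cap
    split_ifs
    · omega
    · exact le_rfl
  have hcapS : ∀ p, p ≤ M → Lf p = L := fun p hp => by rw [hLf]; unfold cap; rw [if_pos hp]
  have hcapB : ∀ p, M < p → Lf p = 1 := fun p hp => by
    rw [hLf]
    unfold cap
    rw [if_neg (by omega)]
  -- the primes
  set S : Finset ℕ := prs 0 M ∪ prs M y with hS
  have hSp : ∀ p ∈ S, p.Prime := by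
    intro p hp
    rw [hS, mem_union] at hp
    unfold prs at hp
    rcases hp with hp | hp
    · exact (mem_filter.1 hp).2
    · exact (mem_filter.1 hp).2
  have hSy : S ⊆ (Icc 1 y).filter Nat.Prime := by
    intro p hp
    rw [mem_filter, mem_Icc]
    have h1 := hSp p hp
    rw [hS, mem_union] at hp
    unfold prs at hp
    rw [mem_filter, mem_filter, mem_Ioc, mem_Ioc] at hp
    refine ⟨⟨h1.one_lt.le, ?_⟩, h1⟩
    rcases hp with hp | hp <;> omega
  have h2S : 2 ∈ S := by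
    rw [hS, mem_union]
    left
    unfold prs
    rw [mem_filter, mem_Ioc]
    exact ⟨⟨by norm_num, hM2⟩, Nat.prime_two⟩
  have hdisj : Disjoint (prs 0 M) (prs M y) := by
    rw [Finset.disjoint_left]
    intro p h1 h2
    unfold prs at h1 h2
    rw [mem_filter, mem_Ioc] at h1 h2
    omega
  -- the two means
  obtain ⟨hJ, hI⟩ := hCI Lf S m θ hSp
  rw [hCA Lf S m θ hSp] at hJ
  set f : ℕ → ℂ := fun p => charJ Lf {p} m θ with hf
  set a : ℕ → ℝ := fun p => ‖psi p (Lf p) θ‖ ^ (2 * m) with ha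
  have hJ' : J Lf S (tst m θ) ≤ ‖f 2‖ * ∏ p ∈ S.erase 2, ‖f p‖ := by
    rw [hJ]
    refine (Complex.re_le_norm _).trans (le_of_eq ?_)
    rw [norm_prod, ← mul_prod_erase S _ h2S]
  have hI' : I Lf S (tst m θ) = a 2 * ∏ p ∈ S.erase 2, a p := by
    rw [hI, ← mul_prod_erase S _ h2S]
  have hθ0 : 0 < θ := by rw [hθ]; positivity
  have hθ2 : θ ^ 2 = 1 / (4 * (m : ℝ) ^ 2) := by
    rw [hθ, div_pow, one_pow, mul_pow]
    norm_num
  have hθ4 : θ ^ 2 ≤ 1 / 4 := by
    rw [hθ2]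
    apply one_div_le_one_div_of_le (by norm_num)
    nlinarith
  have hx : ∀ p : ℕ, 6 * (m : ℝ) * θ ^ 2 / p = 3 / (2 * m * p) := by
    intro p
    rw [hθ2]
    rcases Nat.eq_zero_or_pos p with hp | hp
    · rw [hp]
      simp
    · have : (0 : ℝ) < p := by exact_mod_cast hp
      field_simp
      norm_num
  have ha1 : ∀ p, p.Prime → 1 - 3 / (2 * m * p) ≤ a p := by
    intro p hp
    have hp2 : (2 : ℝ) ≤ p := by exact_mod_cast hp.two_le
    have h3 := (hC3 p (Lf p) m θ hp (hcap1 p) (by linarith)).2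
    rw [hx] at h3
    exact h3
  -- the odd primes
  set P : ℝ := ∏ p ∈ S.erase 2, a p with hP
  have hodd : ∀ p ∈ S.erase 2, p.Prime ∧ 3 ≤ p ∧ p ≠ 2 := by
    intro p hp
    rw [mem_erase] at hp
    have h1 := hSp p hp.2
    have := h1.two_le
    exact ⟨h1, by omega, hp.1⟩
  have hx2 : ∀ p ∈ S.erase 2, (0 : ℝ) ≤ 3 / (2 * m * p) ∧ 3 / (2 * m * p) ≤ (1 : ℝ) / 2 ∧
      1 - 3 / (2 * m * p) ≤ a p := by
    intro p hp
    obtain ⟨h1, h3, -⟩ := hodd p hp
    have hp3 : (3 : ℝ) ≤ p := by exact_mod_cast h3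
    refine ⟨by positivity, ?_, ha1 p h1⟩
    rw [div_le_div_iff₀ (by positivity) (by norm_num)]
    nlinarith
  have hPge : Real.exp (-(3 * (1 + |C0|) / c)) ≤ P := by
    refine le_trans ?_ (aprod (S.erase 2) a (fun p => 3 / (2 * m * p)) hx2)
    apply Real.exp_le_exp.2
    apply neg_le_neg
    have h1 : ∑ p ∈ S.erase 2, (3 : ℝ) / (2 * m * p) = 3 / (2 * m) * ∑ p ∈ S.erase 2, (1 : ℝ) / p := by
      rw [mul_sum]
      refine sum_congr rfl fun p hp => ?_
      rw [div_mul_div_comm, mul_one]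
    have h3 : ∑ p ∈ S.erase 2, (1 : ℝ) / p ≤ t + |C0| := by
      have h4 : ∑ p ∈ S.erase 2, (1 : ℝ) / p ≤ ∑ p ∈ (Icc 1 y).filter Nat.Prime, (1 : ℝ) / p :=
        sum_le_sum_of_subset_of_nonneg ((erase_subset _ _).trans hSy) fun i _ _ => by positivity
      have h5 := (abs_le.1 (hMe y k8)).2
      have h6 := le_abs_self C0
      linarith
    rw [h1]
    have h4 : 2 * (3 / (2 * (m : ℝ)) * ∑ p ∈ S.erase 2, (1 : ℝ) / p) ≤
        2 * (3 / (2 * m) * (t + |C0|)) := by
      have : (0 : ℝ) ≤ 3 / (2 * m) := by positivity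
      have := mul_le_mul_of_nonneg_left h3 this
      linarith
    refine h4.trans ?_
    have h5 : 2 * (3 / (2 * (m : ℝ)) * (t + |C0|)) = 3 * (t + |C0|) / m := by
      field_simp
    rw [h5, div_le_div_iff₀ hmr hc]
    have h6 : t + |C0| ≤ (1 + |C0|) * t := by nlinarith [abs_nonneg C0]
    calc 3 * (t + |C0|) * c ≤ 3 * ((1 + |C0|) * t) * c := by
          apply mul_le_mul_of_nonneg_right _ hc.le
          linarith
      _ = 3 * (1 + |C0|) * (c * t) := by ring
      _ ≤ 3 * (1 + |C0|) * m := by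
          apply mul_le_mul_of_nonneg_left hm1
          positivity
  have hP0 : 0 < P := lt_of_lt_of_le (Real.exp_pos _) hPge
  set K1 : ℝ := C2 * θ ^ 2 * (((1 + Real.log m) ^ 2 + 1) * m) with hK1
  set K2 : ℝ := CB * (m : ℝ) ^ 2 with hK2
  have hK10 : 0 ≤ K1 := by rw [hK1]; positivity
  have hK20 : 0 ≤ K2 := by rw [hK2]; positivity
  set d : ℕ → ℝ := fun p => if p ≤ M then K1 * (1 / p) else K2 * (1 / (p : ℝ) ^ 2) with hd
  have hd0 : ∀ p, 0 ≤ d p := by
    intro p
    rw [hd]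
    simp only
    split_ifs <;> positivity
  have hdp : ∀ p ∈ S.erase 2, 1 / 2 ≤ a p ∧ ‖f p - (a p : ℂ)‖ ≤ d p := by
    intro p hp
    obtain ⟨h1, h3, h4⟩ := hodd p hp
    obtain ⟨g1, g2, g3⟩ := hx2 p hp
    refine ⟨by linarith, ?_⟩
    have hp0 : (0 : ℝ) < p := by exact_mod_cast h1.pos
    by_cases hpM : p ≤ M
    · have h5 := h2 Lf p m θ h1 h4 (hcap1 p) hm0
      have h6 : d p = K1 * (1 / p) := by
        rw [hd]
        simp only
        rw [if_pos hpM]
      rw [h6]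
      refine h5.trans ?_
      rw [hK1]
      have h7 : C2 * θ ^ 2 * (((1 + Real.log m) ^ 2 + 1) * m) * (1 / p) =
          C2 * θ ^ 2 * ((1 + Real.log m) ^ 2 * ((m : ℝ) / p) + m / p) := by
        field_simp
      rw [h7]
      apply mul_le_mul_of_nonneg_left _ (by positivity)
      have h8 : min 1 ((m : ℝ) / p) ≤ m / p := min_le_right _ _
      have h9 : (0 : ℝ) ≤ (1 + Real.log m) ^ 2 := by positivity
      have := mul_le_mul_of_nonneg_left h8 h9
      linarith
    · have h5 := hB Lf p m θ h1 (by omega) (hcapB p (by omega)) hm0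
      have h6 : d p = K2 * (1 / (p : ℝ) ^ 2) := by
        rw [hd]
        simp only
        rw [if_neg hpM]
      rw [h6]
      refine h5.trans (le_of_eq ?_)
      rw [hK2]
      field_simp
  have hjp := jprod (S.erase 2) a f d hdp
  -- the sum of the errors
  set D : ℝ := ∑ p ∈ S.erase 2, d p with hD
  have hD0 : 0 ≤ D := sum_nonneg fun p _ => hd0 p
  have hD1 : D ≤ K1 * (1 + Real.log M) + K2 * (1 / M) := by
    have h1 : D ≤ ∑ p ∈ S, d p :=
      sum_le_sum_of_subset_of_nonneg (erase_subset _ _) fun i _ _ => hd0 i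
    have h3 : ∑ p ∈ S, d p = ∑ p ∈ prs 0 M, d p + ∑ p ∈ prs M y, d p := by
      rw [hS, sum_union hdisj]
    have h4 : ∑ p ∈ prs 0 M, d p = K1 * ∑ p ∈ prs 0 M, (1 : ℝ) / p := by
      rw [mul_sum]
      refine sum_congr rfl fun p hp => ?_
      unfold prs at hp
      rw [mem_filter, mem_Ioc] at hp
      rw [hd]
      simp only
      rw [if_pos hp.1.2]
    have h5 : ∑ p ∈ prs M y, d p = K2 * ∑ p ∈ prs M y, (1 : ℝ) / (p : ℝ) ^ 2 := by
      rw [mul_sum]
      refine sum_congr rfl fun p hp => ?_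
      unfold prs at hp
      rw [mem_filter, mem_Ioc] at hp
      rw [hd]
      simp only
      rw [if_neg (by omega)]
    rw [h3, h4, h5] at h1
    have h6 := mul_le_mul_of_nonneg_left (sum_inv M) hK10
    have h7 := mul_le_mul_of_nonneg_left (sum_inv_sq (M := M) (y := y) (by omega) hMy) hK20
    linarith
  have hMr : (0 : ℝ) < M := by
    have : 0 < M := by omega
    exact_mod_cast this
  have hDa : K1 * (1 + Real.log M) ≤ 1 / 200 := by
    have hlM : Real.log M ≤ 3 * Real.log t := by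
      have h1 : Real.log M ≤ Real.log (t ^ 3) := Real.log_le_log hMr hMle
      rw [Real.log_pow] at h1
      exact_mod_cast h1
    have hlm : Real.log m ≤ 1 + Real.log t := by
      have h1 : (m : ℝ) ≤ Real.exp 1 * t := by
        have h3 : (2 : ℝ) ≤ Real.exp 1 := by
          have := Real.add_one_le_exp (1 : ℝ)
          linarith
        nlinarith
      have h4 : Real.log m ≤ Real.log (Real.exp 1 * t) := Real.log_le_log hmr h1
      rw [Real.log_mul (Real.exp_ne_zero _) ht0.ne', Real.log_exp] at h4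
      exact h4
    have hlm0 : 0 ≤ Real.log m := Real.log_nonneg hm1r
    set ℓ := Real.log t with hℓd
    have e1 : (1 + Real.log m) ^ 2 + 1 ≤ 10 * ℓ ^ 2 := by
      have : 1 + Real.log m ≤ 3 * ℓ := by linarith
      have : (1 + Real.log m) ^ 2 ≤ (3 * ℓ) ^ 2 := pow_le_pow_left₀ (by linarith) this 2
      nlinarith
    have e2 : 1 + Real.log M ≤ 4 * ℓ := by linarith
    have e3 : ((1 + Real.log m) ^ 2 + 1) * (1 + Real.log M) ≤ 40 * ℓ ^ 3 := by
      calc ((1 + Real.log m) ^ 2 + 1) * (1 + Real.log M) ≤ (10 * ℓ ^ 2) * (4 * ℓ) := by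
            apply mul_le_mul e1 e2 _ (by positivity)
            have : 0 ≤ Real.log M := Real.log_natCast_nonneg M
            linarith
        _ = 40 * ℓ ^ 3 := by ring
    have e4 : K1 * (1 + Real.log M) =
        C2 / (4 * m) * (((1 + Real.log m) ^ 2 + 1) * (1 + Real.log M)) := by
      rw [hK1, hθ2]
      field_simp
    rw [e4]
    have e5 : C2 / (4 * m) ≤ C2 / (4 * (c * t)) := by
      apply div_le_div_of_nonneg_left hC2p.le (by positivity)
      linarith
    calc C2 / (4 * m) * (((1 + Real.log m) ^ 2 + 1) * (1 + Real.log M))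
        ≤ C2 / (4 * (c * t)) * (40 * (c / (2000 * C2) * t)) := by
          apply mul_le_mul e5 _ _ (by positivity)
          · refine e3.trans ?_
            linarith
          · have : 0 ≤ Real.log M := Real.log_natCast_nonneg M
            positivity
      _ = 1 / 200 := by
          field_simp
          norm_num
  have hDb : K2 * (1 / M) ≤ 1 / 200 := by
    rw [hK2]
    have h1 : (m : ℝ) ^ 2 ≤ (2 * t) ^ 2 := pow_le_pow_left₀ hmr.le (by linarith) 2
    have h3 : t ^ 3 / 2 ≤ M := by linarith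
    rw [mul_one_div, div_le_div_iff₀ hMr (by norm_num)]
    have h4 : CB * (m : ℝ) ^ 2 * 200 ≤ CB * (2 * t) ^ 2 * 200 := by
      have := mul_le_mul_of_nonneg_left h1 hCBp.le
      linarith
    have h5 : CB * (2 * t) ^ 2 * 200 ≤ t ^ 3 / 2 := by
      have h6 : 1600 * CB * t ^ 2 ≤ t * t ^ 2 := mul_le_mul_of_nonneg_right k5 (by positivity)
      have h7 : CB * (2 * t) ^ 2 * 200 = (1600 * CB * t ^ 2) / 2 := by ring
      have h8 : t * t ^ 2 = t ^ 3 := by ring
      rw [h7]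
      linarith
    linarith
  have hD2 : D ≤ 1 / 100 := by linarith
  have hexpD : Real.exp (2 * D) ≤ 103 / 100 := by
    have h1 : Real.exp (2 * D) ≤ Real.exp (1 / 50) := Real.exp_le_exp.2 (by linarith)
    have h3 := Real.exp_bound_div_one_sub_of_interval (show (0 : ℝ) ≤ 1 / 50 by norm_num)
      (show (1 / 50 : ℝ) < 1 by norm_num)
    refine h1.trans (h3.trans ?_)
    norm_num
  -- the prime two
  have hf2 : ‖f 2‖ ≤ 5 / 9 + 2 / 100 := by
    have h1 := hC1 Lf m θ (hcap1 2) hm0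
    rw [hcapS 2 hM2] at h1
    have h3 : 2 * (m : ℝ) * θ = 1 := by
      rw [hθ]
      field_simp
    rw [h3, abs_of_pos hθ0, abs_of_pos Real.cos_one_pos] at h1
    have h4 : θ * (L + 2 * m / 2 ^ L) = L / (2 * m) + 1 / 2 ^ L := by
      rw [hθ]
      field_simp
    rw [h4] at h1
    have h5 : (L : ℝ) / (2 * m) ≤ 1 / 100 := by
      rw [div_le_div_iff₀ (by positivity) (by norm_num)]
      have h6 : 25 ≤ c * Real.sqrt t := by
        rw [div_le_iff₀ hc] at hst
        linarith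
      have h7 : 25 * Real.sqrt t ≤ c * t := by
        calc 25 * Real.sqrt t ≤ c * Real.sqrt t * Real.sqrt t :=
              mul_le_mul_of_nonneg_right h6 (Real.sqrt_nonneg _)
          _ = c * t := by rw [mul_assoc, hsq]
      linarith
    have h6 : (1 : ℝ) / 2 ^ L ≤ 1 / 100 := by
      apply one_div_le_one_div_of_le (by norm_num)
      calc (100 : ℝ) ≤ 2 ^ 7 := by norm_num
        _ ≤ 2 ^ L := pow_le_pow_right₀ (by norm_num) hL7
    have h7 := Real.cos_one_le
    exact h1.trans (by linarith)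
  have ha2 : 99 / 100 ≤ a 2 := by
    have h1 := ha1 2 Nat.prime_two
    push_cast at h1
    have h3 : 3 / (2 * (m : ℝ) * 2) ≤ 1 / 100 := by
      rw [div_le_div_iff₀ (by positivity) (by norm_num)]
      have h4 : 75 ≤ c * t := by
        rw [div_le_iff₀ hc] at k3
        linarith
      linarith
    linarith
  -- conclusion
  have hJ2 : J Lf S (tst m θ) ≤ (5 / 9 + 2 / 100) * (P * (103 / 100)) := by
    refine hJ'.trans ?_
    apply mul_le_mul hf2 _ (prod_nonneg fun _ _ => norm_nonneg _) (by norm_num)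
    refine hjp.trans ?_
    exact mul_le_mul_of_nonneg_left hexpD hP0.le
  have hI2 : 99 / 100 * P ≤ I Lf S (tst m θ) := by
    rw [hI']
    exact mul_le_mul_of_nonneg_right ha2 hP0.le
  have hfin : 1 / 4 * Real.exp (-(3 * (1 + |C0|) / c)) ≤ I Lf S (tst m θ) - J Lf S (tst m θ) := by
    nlinarith
  exact hfin

end Pool.Agent.H52.OM
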